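import Pool.Agent.Helper83.Ek.CertData

/-! # Soundness of the certificate: `Alt 1 N0` -/

set_option autoImplicit false

namespace Pool.Agent.Helper83.Ek

open Finset Pool.Agent.Lead.Ek

theorem tb_eq (K p : Nat) : tb K p = K.testBit p := by
  have h : Nat.land 1 (Nat.shiftRight K p) = (K >>> p) % 2 := by
    change 1 &&& (K >>> p) = _
    rw [Nat.and_comm]; exact Nat.and_one_is_mod _
  unfold tb Nat.testBit
  rw [h, Nat.and_comm, Nat.and_one_is_mod]
  have : (K >>> p) % 2 = 0 ∨ (K >>> p) % 2 = 1 := by omega
  rcases this with h | h <;> rw [h] <;> rfl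

/-- Bit mask of a set. -/
def msk (X : Finset (Fin 13)) : Nat := Nat.ofBits (fun i : Fin 13 => decide (i ∈ X))

theorem testBit_msk (X : Finset (Fin 13)) (i : Fin 13) :
    (msk X).testBit i.val = decide (i ∈ X) := by
  unfold msk
  rw [Nat.testBit_ofBits_lt _ _ i.isLt]

theorem testBit_msk_ge (X : Finset (Fin 13)) (i : Nat) (h : 13 ≤ i) :
    (msk X).testBit i = false := by
  unfold msk
  rw [Nat.testBit_ofBits_ge _ _ h]

theorem msk_lt (X : Finset (Fin 13)) : msk X < 8192 := by
  have := Nat.ofBits_lt_two_pow (fun i : Fin 13 => decide (i ∈ X))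
  simpa [msk] using this

theorem msk_inj {X Y : Finset (Fin 13)} (h : msk X = msk Y) : X = Y := by
  ext i
  have h1 := testBit_msk X i
  have h2 := testBit_msk Y i
  rw [h, h2] at h1
  simpa using h1.symm

/-- The set with a given mask. -/
def ofM (s : Nat) : Finset (Fin 13) := univ.filter fun i => s.testBit i.val = true

theorem msk_ofM {s : Nat} (h : s < 8192) : msk (ofM s) = s := by
  apply Nat.eq_of_testBit_eq
  intro i
  by_cases hi : i < 13
  · have := testBit_msk (ofM s) ⟨i, hi⟩
    simp only [ofM, mem_filter, mem_univ, true_and, Bool.decide_eq_true] at this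
    exact this
  · rw [testBit_msk_ge _ _ (by omega)]
    symm
    apply Nat.testBit_lt_two_pow
    calc s < 2 ^ 13 := by simpa using h
      _ ≤ 2 ^ i := Nat.pow_le_pow_right (by norm_num) (by omega)

theorem msk_insert (X : Finset (Fin 13)) (v : Fin 13) :
    msk (insert v X) = Nat.lor (msk X) (Nat.pow 2 v.val) := by
  apply Nat.eq_of_testBit_eq
  intro i
  change _ = (msk X ||| 2 ^ v.val).testBit i
  rw [Nat.testBit_or, Nat.testBit_two_pow]
  by_cases hi : i < 13
  · have h1 := testBit_msk (insert v X) ⟨i, hi⟩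
    have h2 := testBit_msk X ⟨i, hi⟩
    simp only at h1 h2
    rw [h1, h2]
    have : (v.val = i) ↔ ((⟨i, hi⟩ : Fin 13) = v) := by
      rw [Fin.ext_iff]; exact eq_comm
    simp only [mem_insert]
    rw [Bool.eq_iff_iff]
    simp [this, or_comm]
  · rw [testBit_msk_ge _ _ (by omega), testBit_msk_ge _ _ (by omega)]
    have : v.val ≠ i := by have := v.isLt; omega
    simp [this]

theorem msk_erase (X : Finset (Fin 13)) (v : Fin 13) (hv : v ∈ X) :
    msk (X.erase v) = Nat.xor (msk X) (Nat.pow 2 v.val) := by
  apply Nat.eq_of_testBit_eq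
  intro i
  change _ = (msk X ^^^ 2 ^ v.val).testBit i
  rw [Nat.testBit_xor, Nat.testBit_two_pow]
  by_cases hi : i < 13
  · have h1 := testBit_msk (X.erase v) ⟨i, hi⟩
    have h2 := testBit_msk X ⟨i, hi⟩
    simp only at h1 h2
    rw [h1, h2]
    by_cases e : (⟨i, hi⟩ : Fin 13) = v
    · subst e
      simp [hv]
    · have e' : v.val ≠ i := by
        intro h; apply e; rw [Fin.ext_iff]; exact h.symm
      simp [e, e']
  · rw [testBit_msk_ge _ _ (by omega), testBit_msk_ge _ _ (by omega)]
    have : v.val ≠ i := by have := v.isLt; omega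
    simp [this]

/-- The complex with a given bit set. -/
def dec (K : Nat) : Set (Finset (Fin 13)) := {X | K.testBit (msk X) = true}

theorem mem_dec (K : Nat) (X : Finset (Fin 13)) : X ∈ dec K ↔ K.testBit (msk X) = true := Iff.rfl

theorem faces_sound (K t s : Nat) : ∀ n : Nat, faces K t s n = true →
    ∀ i < n, s.testBit i = true → K.testBit (Nat.xor t (Nat.pow 2 i)) = true
  | 0, _, i, hi, _ => absurd hi (Nat.not_lt_zero _)
  | n + 1, h, i, hi, hs => by
    unfold faces at h
    rw [tb_eq, tb_eq] at h
    rcases Nat.lt_succ_iff_lt_or_eq.mp hi with h1 | h1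
    · refine faces_sound K t s n ?_ i h1 hs
      revert h
      cases s.testBit n <;> cases K.testBit (Nat.xor t (Nat.pow 2 n)) <;> simp
    · subst h1
      rw [hs] at h
      revert h
      cases K.testBit (Nat.xor t (Nat.pow 2 i)) <;> simp

theorem okStep_sound (K s v : Nat) (hs : s < 8192)
    (h : okStep K s v (Nat.lor s (Nat.pow 2 v)) = true) :
    Mv 0 0 (dec K) (dec (Nat.lor K (Nat.lor (Nat.pow 2 s)
      (Nat.pow 2 (Nat.lor s (Nat.pow 2 v)))))) := by
  unfold okStep at h
  rw [tb_eq, tb_eq, tb_eq] at h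
  have hv : v < 13 := by
    by_contra hc
    have : Nat.blt v 13 = false := by
      have h2 : ¬ (Nat.blt v 13 = true) := by
        intro h3
        have h4 : v + 1 ≤ 13 := Nat.le_of_ble_eq_true h3
        omega
      exact Bool.eq_false_iff.mpr h2
    rw [this] at h
    simp at h
  have hv' : Nat.blt v 13 = true := Nat.ble_eq_true_of_le hv
  rw [hv'] at h
  simp only [cond_true] at h
  have h1 : s.testBit v = false := by
    revert h; cases s.testBit v <;> simp
  have h2 : K.testBit s = false := by
    revert h; rw [h1]; cases K.testBit s <;> simp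
  have h3 : K.testBit (Nat.lor s (Nat.pow 2 v)) = false := by
    revert h; rw [h1, h2]; cases K.testBit (Nat.lor s (Nat.pow 2 v)) <;> simp
  rw [h1, h2, h3] at h
  simp only [cond_false] at h
  have h4 := faces_sound _ _ _ 13 h
  have hm := msk_ofM hs
  have hm2 : msk (insert (⟨v, hv⟩ : Fin 13) (ofM s)) = Nat.lor s (Nat.pow 2 v) := by
    rw [msk_insert, hm]
  refine ⟨ofM s, ⟨v, hv⟩, ?_, Nat.zero_le _, Nat.zero_le _, ?_, ?_, ?_, ?_⟩
  · simp [ofM, h1]
  · rw [mem_dec, hm, h2]; simp
  · rw [mem_dec, hm2, h3]; simp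
  · intro t ht
    have hne : (⟨v, hv⟩ : Fin 13) ≠ t := by
      rintro rfl
      simp [ofM, h1] at ht
    have e : insert (⟨v, hv⟩ : Fin 13) ((ofM s).erase t) =
        (insert (⟨v, hv⟩ : Fin 13) (ofM s)).erase t := by
      rw [Finset.erase_insert_of_ne hne]
    rw [mem_dec, e, msk_erase _ _ (mem_insert_of_mem ht), hm2]
    apply h4 _ t.isLt
    simpa [ofM] using ht
  · ext X
    rw [mem_dec]
    change (K ||| (2 ^ s ||| 2 ^ (Nat.lor s (Nat.pow 2 v)))).testBit (msk X) = true ↔ _
    rw [Nat.testBit_or, Nat.testBit_or, Nat.testBit_two_pow, Nat.testBit_two_pow]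
    simp only [Bool.or_eq_true, decide_eq_true_eq, Set.mem_union, Set.mem_insert_iff,
      Set.mem_singleton_iff, mem_dec]
    constructor
    · rintro (h | h | h)
      · exact Or.inl h
      · exact Or.inr (Or.inl (msk_inj (h.symm.trans hm.symm)))
      · exact Or.inr (Or.inr (msk_inj (h.symm.trans hm2.symm)))
    · rintro (h | h | h)
      · exact Or.inl h
      · right; left; rw [h, hm]
      · right; right; rw [h, hm2]

theorem run_sound : ∀ (n code K T : Nat), run n code K T = true →
    MvStar 0 0 (dec K) (dec T)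
  | 0, _, K, T, h => by
    have : K = T := Nat.eq_of_beq_eq_true h
    subst this
    exact Relation.ReflTransGen.refl
  | n + 1, code, K, T, h => by
    unfold run at h
    have hs : Nat.land code 8191 < 8192 := by
      change code &&& 8191 < 8192
      exact lt_of_le_of_lt Nat.and_le_right (by norm_num)
    cases hok : okStep K (Nat.land code 8191) (Nat.land (Nat.shiftRight code 13) 15)
      (Nat.lor (Nat.land code 8191) (Nat.pow 2 (Nat.land (Nat.shiftRight code 13) 15))) with
    | false => rw [hok] at h; simp at h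
    | true =>
      rw [hok] at h
      simp only [cond_true] at h
      exact Relation.ReflTransGen.head (okStep_sound _ _ _ hs hok) (run_sound n _ _ _ h)

theorem chk0_sound : ∀ n : Nat, chk0 n = true → ∀ p < n,
    (K0.testBit p = true ↔ ∃ F ∈ facetMasks, Nat.land p F = p)
  | 0, _, p, hp => absurd hp (Nat.not_lt_zero _)
  | n + 1, h, p, hp => by
    unfold chk0 at h
    rw [tb_eq] at h
    rcases Nat.lt_succ_iff_lt_or_eq.mp hp with h1 | h1
    · refine chk0_sound n ?_ p h1
      revert h
      cases K0.testBit n <;>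
        cases (facetMasks.any fun F => Nat.beq (Nat.land n F) n) <;> simp
    · subst h1
      have : (∃ F ∈ facetMasks, Nat.land p F = p) ↔
          (facetMasks.any fun F => Nat.beq (Nat.land p F) p) = true := by
        rw [List.any_eq_true]
        constructor
        · rintro ⟨F, hF, e⟩
          exact ⟨F, hF, by rw [e]; exact Nat.beq_refl p⟩
        · rintro ⟨F, hF, e⟩
          exact ⟨F, hF, Nat.eq_of_beq_eq_true e⟩
      rw [this]
      revert h
      cases K0.testBit p <;>
        cases (facetMasks.any fun F => Nat.beq (Nat.land p F) p) <;> simp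

theorem land_eq_iff (X : Finset (Fin 13)) (F : Nat) :
    Nat.land (msk X) F = msk X ↔ ∀ i ∈ X, Nat.testBit F i.val = true := by
  constructor
  · intro h i hi
    have h1 : ((msk X) &&& F).testBit i.val = (msk X).testBit i.val := by
      change (Nat.land (msk X) F).testBit i.val = _
      rw [h]
    rw [Nat.testBit_and, testBit_msk] at h1
    simpa [hi] using h1
  · intro h
    apply Nat.eq_of_testBit_eq
    intro i
    change ((msk X) &&& F).testBit i = _
    rw [Nat.testBit_and]
    by_cases hi : i < 13
    · have h2 := testBit_msk X ⟨i, hi⟩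
      simp only at h2
      rw [h2]
      by_cases h3 : (⟨i, hi⟩ : Fin 13) ∈ X
      · have := h _ h3
        simp only at this
        simp [h3, this]
      · simp [h3]
    · rw [testBit_msk_ge _ _ (by omega)]; simp

theorem dec_K0 : dec K0 = N0 := by
  ext X
  rw [mem_dec, chk0_sound 8192 chk0_ok _ (msk_lt X)]
  unfold N0
  simp only [land_eq_iff]
  rfl

theorem testBit_full (n m : Nat) (h : m < n) : (Nat.sub (Nat.pow 2 n) 1).testBit m = true := by
  change (2 ^ n - 1).testBit m = true
  rw [Nat.testBit_two_pow_sub_one]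
  simpa using h

theorem dec_full : dec (Nat.sub (Nat.pow 2 8192) 1) = Set.univ := by
  apply Set.eq_univ_of_forall
  intro X
  rw [mem_dec]
  exact testBit_full _ _ (msk_lt X)

/-- `N0` expands to the full simplex. -/
theorem N0_expands : MvStar 0 0 N0 Set.univ := by
  have := run_sound _ _ _ _ run_ok
  rwa [dec_K0, dec_full] at this

theorem alt_N0 : Alt 1 N0 := by
  refine Alt.succ 0 N0 Set.univ N0_expands (Alt.zero _ ?_)
  have : dual (Set.univ : Set (Finset (Fin 13))) = ∅ := by
    ext X; simp [dual]
  rw [this]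
  exact NE.irr _ _ 0 (mem_univ _) (fun X _ => by simp)

theorem cert : ∃ n, Alt n N0 := ⟨1, alt_N0⟩

/-- An expansion followed by a collapse costs two phases. -/
theorem alt_of_expand_collapse (hdualMv : P3_dualMv) {α : Type} [DecidableEq α] [Fintype α]
    (n : ℕ) (K L L' : Set (Finset α)) (h : MvStar 0 0 K L) (h' : MvStar 0 0 L' L) (hL' : Cx L')
    (hn : Alt n L') : Alt (n + 2) K := by
  refine Alt.succ (n + 1) K L h (Alt.succ n (dual L) (dual L') (hdualMv 0 0 L' L hL' h') ?_)
  have : dual (dual L') = L' := by ext X; simp [dual]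
  rwa [this]

end Pool.Agent.Helper83.Ek
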