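import Pool.Agent.Lead.Ek.Defs

/-! # The contractible complex on 13 vertices: the suspension of the Poincare 2-complex

Vertices `0..4` (the complete graph `K5`), `5..10` (cone points over the six pentagons of an orbit
of `A5`), `11, 12` (suspension points).  The 60 facets are given by bit masks. -/

set_option autoImplicit false

namespace Pool.Agent.Helper83.Ek

/-- Bit masks of the 60 facets (tetrahedra). -/
def facetMasks : List Nat :=
  [2104, 4152, 2083, 4131, 2085, 4133, 2100, 4148, 2090, 4138,
   2130, 4178, 2124, 4172, 2121, 4169, 2115, 4163, 2132, 4180,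
   2200, 4248, 2188, 4236, 2182, 4230, 2179, 4227, 2193, 4241,
   2328, 4376, 2322, 4370, 2310, 4358, 2313, 4361, 2309, 4357,
   2578, 4626, 2572, 4620, 2565, 4613, 2577, 4625, 2570, 4618,
   3078, 5126, 3081, 5129, 3089, 5137, 3092, 5140, 3082, 5130]

/-- The complex: all sets contained in a facet. -/
def N0 : Set (Finset (Fin 13)) :=
  {T | ∃ F ∈ facetMasks, ∀ i ∈ T, Nat.testBit F i.val = true}

end Pool.Agent.Helper83.Ek
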